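import Pool.Agent.H31.ZW.PW

/-!
# The logarithm on `1 + pO`
-/

open Filter Topology

namespace Pool.Agent.H31.ZW

open Pool.Agent.H16.ZW

section

variable {p : ℕ} {K : Type} [NormedField K] [IsUltrametricDist K]

/-- the approximations of the logarithm -/
noncomputable def lga (p : ℕ) (x : K) (T : ℕ) : K := (x ^ p ^ T - 1) / (p : K) ^ T

omit [IsUltrametricDist K] in
lemma p_ne (h : PK p K) : (p : K) ≠ 0 := by
  rw [← norm_pos_iff, h.norm_p]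
  exact p_pos h

lemma zT_norm (h : PK p K) {x : K} (hx : ‖x - 1‖ ≤ (p : ℝ)⁻¹) (T : ℕ) :
    ‖x ^ p ^ T - 1‖ = ((p : ℝ)⁻¹) ^ T * ‖x - 1‖ := by
  rw [pow_norm h (p ^ T) x hx, Nat.cast_pow, norm_pow, h.norm_p]

lemma lga_norm (h : PK p K) {x : K} (hx : ‖x - 1‖ ≤ (p : ℝ)⁻¹) (T : ℕ) :
    ‖lga p x T‖ = ‖x - 1‖ := by
  have hp : ((p : ℝ)⁻¹) ^ T ≠ 0 := pow_ne_zero _ (p_pos h).ne'
  rw [lga, norm_div, zT_norm h hx, norm_pow, h.norm_p, mul_div_cancel_left₀ _ hp]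

lemma lga_step (h : PK p K) {x : K} (hx : ‖x - 1‖ ≤ (p : ℝ)⁻¹) (T : ℕ) :
    ‖lga p x (T + 1) - lga p x T‖ ≤ ((p : ℝ)⁻¹) ^ (T + 1) * ‖x - 1‖ := by
  have hpK := p_ne h
  have hpos := p_pos h
  have h1 : lga p x (T + 1) - lga p x T =
      ((x ^ p ^ T) ^ p - 1 - p * (x ^ p ^ T - 1)) / (p : K) ^ (T + 1) := by
    have h2 : x ^ p ^ (T + 1) = (x ^ p ^ T) ^ p := by rw [← pow_mul, pow_succ]
    rw [lga, lga, h2, pow_succ]
    field_simp
  have h3 : ‖x ^ p ^ T - 1‖ ≤ (p : ℝ)⁻¹ := by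
    rw [zT_norm h hx]
    calc ((p : ℝ)⁻¹) ^ T * ‖x - 1‖ ≤ 1 * (p : ℝ)⁻¹ :=
          mul_le_mul (pow_le_one₀ hpos.le (p_lt h).le) hx (norm_nonneg _) zero_le_one
      _ = _ := one_mul _
  have h4 := pow_p_sub h h3
  have hq : (0 : ℝ) < ((p : ℝ)⁻¹) ^ (T + 1) := pow_pos hpos _
  rw [h1, norm_div, norm_pow, h.norm_p, div_le_iff₀ hq]
  refine h4.trans ?_
  rw [zT_norm h hx]
  have h5 : (p : ℝ)⁻¹ * (((p : ℝ)⁻¹) ^ T * ‖x - 1‖) ^ 2 =
      (((p : ℝ)⁻¹) ^ T * ((p : ℝ)⁻¹) ^ (T + 1) * ‖x - 1‖) * ‖x - 1‖ := by ring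
  have h6 : ((p : ℝ)⁻¹) ^ (T + 1) * ‖x - 1‖ * ((p : ℝ)⁻¹) ^ (T + 1) =
      (((p : ℝ)⁻¹) ^ T * ((p : ℝ)⁻¹) ^ (T + 1) * ‖x - 1‖) * (p : ℝ)⁻¹ := by ring
  rw [h5, h6]
  exact mul_le_mul_of_nonneg_left hx (by positivity)

lemma lga_far (h : PK p K) {x : K} (hx : ‖x - 1‖ ≤ (p : ℝ)⁻¹) (T n : ℕ) :
    ‖lga p x (T + n) - lga p x T‖ ≤ ((p : ℝ)⁻¹) ^ (T + 1) * ‖x - 1‖ := by
  have hpos := p_pos h
  induction n with
  | zero =>
    simp only [add_zero, sub_self, norm_zero]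
    positivity
  | succ n ih =>
    have h1 : lga p x (T + (n + 1)) - lga p x T =
        (lga p x (T + n + 1) - lga p x (T + n)) + (lga p x (T + n) - lga p x T) := by
      rw [← add_assoc]; ring
    rw [h1]
    refine (IsUltrametricDist.norm_add_le_max _ _).trans (max_le ?_ ih)
    refine (lga_step h hx (T + n)).trans ?_
    refine mul_le_mul_of_nonneg_right ?_ (norm_nonneg _)
    exact pow_le_pow_of_le_one hpos.le (p_lt h).le (by omega)

lemma lga_conv [CompleteSpace K] (h : PK p K) {x : K} (hx : ‖x - 1‖ ≤ (p : ℝ)⁻¹) :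
    ∃ l : K, Tendsto (lga p x) atTop (𝓝 l) := by
  have hpos := p_pos h
  refine cauchySeq_tendsto_of_complete ?_
  refine cauchySeq_of_le_geometric (p : ℝ)⁻¹ (((p : ℝ)⁻¹) * ‖x - 1‖) (p_lt h) ?_
  intro n
  rw [dist_comm, dist_eq_norm]
  refine (lga_step h hx n).trans (le_of_eq ?_)
  ring

lemma norm_mul_sub_le (h : PK p K) {x y : K} (hx : ‖x - 1‖ ≤ (p : ℝ)⁻¹)
    (hy : ‖y - 1‖ ≤ (p : ℝ)⁻¹) : ‖x * y - 1‖ ≤ (p : ℝ)⁻¹ := by
  have h1 : x * y - 1 = (x - 1) * y + (y - 1) := by ring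
  rw [h1]
  refine (IsUltrametricDist.norm_add_le_max _ _).trans (max_le ?_ hy)
  rw [norm_mul]
  calc ‖x - 1‖ * ‖y‖ ≤ (p : ℝ)⁻¹ * 1 :=
        mul_le_mul hx (norm_le_one h hy) (norm_nonneg _) (p_pos h).le
    _ = _ := mul_one _

omit [IsUltrametricDist K] in
lemma lga_mul (h : PK p K) (x y : K) (T : ℕ) :
    lga p (x * y) T = (p : K) ^ T * lga p x T * lga p y T + lga p x T + lga p y T := by
  have hpK := p_ne h
  have hq : (p : K) ^ T ≠ 0 := pow_ne_zero _ hpK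
  rw [lga, lga, lga, mul_pow]
  field_simp
  ring

omit [IsUltrametricDist K] in
lemma p_pow_tendsto (h : PK p K) : Tendsto (fun T : ℕ => (p : K) ^ T) atTop (𝓝 0) := by
  refine tendsto_pow_atTop_nhds_zero_of_norm_lt_one ?_
  rw [h.norm_p]
  exact p_lt h

end

theorem lg (_ : T_PW) : T_LG := by
  classical
  intro p K _ _ _ h
  choose! L hL using fun x : K => fun hx : ‖x - 1‖ ≤ (p : ℝ)⁻¹ => lga_conv h hx
  refine ⟨L, ?_, ?_⟩
  · intro x hx
    have hT : ∀ T : ℕ, ‖lga p x T - L x‖ ≤ ((p : ℝ)⁻¹) ^ (T + 1) * ‖x - 1‖ := by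
      intro T
      have h1 : Tendsto (fun n => ‖lga p x (T + n) - lga p x T‖) atTop
          (𝓝 ‖L x - lga p x T‖) := by
        have h2 : Tendsto (fun n => lga p x (T + n)) atTop (𝓝 (L x)) := by
          have h3 := (tendsto_add_atTop_iff_nat T).2 (hL x hx)
          simpa only [add_comm] using h3
        exact (h2.sub tendsto_const_nhds).norm
      rw [norm_sub_rev]
      exact le_of_tendsto h1 (Eventually.of_forall fun n => lga_far h hx T n)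
    refine ⟨?_, fun T => hT T⟩
    have h1 : Tendsto (fun T => ‖lga p x T‖) atTop (𝓝 ‖L x‖) := (hL x hx).norm
    have h2 : Tendsto (fun T => ‖lga p x T‖) atTop (𝓝 ‖x - 1‖) := by
      simp only [lga_norm h hx]
      exact tendsto_const_nhds
    exact tendsto_nhds_unique h1 h2
  · intro x y hx hy
    have hxy := norm_mul_sub_le h hx hy
    have h1 := hL (x * y) hxy
    have h2 : Tendsto (fun T => (p : K) ^ T * lga p x T * lga p y T + lga p x T + lga p y T)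
        atTop (𝓝 (0 * L x * L y + L x + L y)) :=
      ((((p_pow_tendsto h).mul (hL x hx)).mul (hL y hy)).add (hL x hx)).add (hL y hy)
    have h3 : lga p (x * y) =
        fun T => (p : K) ^ T * lga p x T * lga p y T + lga p x T + lga p y T :=
      funext fun T => lga_mul h x y T
    rw [h3] at h1
    rw [tendsto_nhds_unique h1 h2]
    ring

end Pool.Agent.H31.ZW
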