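import Pool.Agent.H16.ZW.Targets

/-!
# Powers of elements of `1 + pO`
-/

open Filter Topology

namespace Pool.Agent.H31.ZW

open Pool.Agent.H16.ZW

section

variable {p : ℕ} {K : Type} [NormedField K] [IsUltrametricDist K]

lemma nat_le (n : ℕ) : ‖(n : K)‖ ≤ 1 := IsUltrametricDist.norm_natCast_le_one K n

lemma int_le (n : ℤ) : ‖(n : K)‖ ≤ 1 := IsUltrametricDist.norm_intCast_le_one K n

omit [IsUltrametricDist K] in
lemma p_pos (h : PK p K) : (0 : ℝ) < (p : ℝ)⁻¹ := by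
  have := h.prime.pos
  positivity

omit [IsUltrametricDist K] in
lemma p_lt (h : PK p K) : (p : ℝ)⁻¹ < 1 := by
  have h1 : (1 : ℝ) < p := by exact_mod_cast h.prime.one_lt
  exact inv_lt_one_of_one_lt₀ h1

lemma nat_eq (h : PK p K) (n : ℕ) (hn : ¬ p ∣ n) : ‖(n : K)‖ = 1 := by
  have hc : Nat.Coprime n p := ((Nat.Prime.coprime_iff_not_dvd h.prime).2 hn).symm
  have hb : (1 : ℤ) = n * Nat.gcdA n p + p * Nat.gcdB n p := by
    have := Nat.gcd_eq_gcd_ab n p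
    rw [hc.gcd_eq_one] at this
    exact_mod_cast this
  have hK : (1 : K) = n * (Nat.gcdA n p : ℤ) + p * (Nat.gcdB n p : ℤ) := by
    exact_mod_cast congrArg (fun z : ℤ => (z : K)) hb
  have h2 : ‖(p : K) * (Nat.gcdB n p : ℤ)‖ < 1 := by
    rw [norm_mul, h.norm_p]
    calc (p : ℝ)⁻¹ * ‖((Nat.gcdB n p : ℤ) : K)‖ ≤ (p : ℝ)⁻¹ * 1 :=
          mul_le_mul_of_nonneg_left (int_le _) (p_pos h).le
      _ < 1 := by rw [mul_one]; exact p_lt h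
  by_contra hne
  have hlt : ‖(n : K)‖ < 1 := lt_of_le_of_ne (nat_le n) hne
  have h3 : ‖(n : K) * (Nat.gcdA n p : ℤ)‖ < 1 := by
    rw [norm_mul]
    calc ‖(n : K)‖ * ‖((Nat.gcdA n p : ℤ) : K)‖ ≤ ‖(n : K)‖ * 1 :=
          mul_le_mul_of_nonneg_left (int_le _) (norm_nonneg _)
      _ < 1 := by rw [mul_one]; exact hlt
  have h4 : ‖(1 : K)‖ < 1 := by
    rw [hK]
    exact lt_of_le_of_lt (IsUltrametricDist.norm_add_le_max _ _) (max_lt h3 h2)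
  rw [norm_one] at h4
  exact lt_irrefl _ h4

lemma norm_le_one (h : PK p K) {x : K} (hx : ‖x - 1‖ ≤ (p : ℝ)⁻¹) : ‖x‖ ≤ 1 := by
  have : x = (x - 1) + 1 := by ring
  rw [this]
  refine (IsUltrametricDist.norm_add_le_max _ _).trans (max_le ?_ ?_)
  · exact hx.trans (p_lt h).le
  · rw [norm_one]

lemma pow_sub_le (h : PK p K) {x : K} (hx : ‖x - 1‖ ≤ (p : ℝ)⁻¹) (n : ℕ) :
    ‖x ^ n - 1‖ ≤ ‖x - 1‖ := by
  rw [← mul_geom_sum x n, norm_mul]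
  have : ‖∑ i ∈ Finset.range n, x ^ i‖ ≤ 1 := by
    refine IsUltrametricDist.norm_sum_le_of_forall_le_of_nonneg zero_le_one ?_
    intro i _
    rw [norm_pow]
    exact pow_le_one₀ (norm_nonneg _) (norm_le_one h hx)
  calc ‖x - 1‖ * ‖∑ i ∈ Finset.range n, x ^ i‖ ≤ ‖x - 1‖ * 1 :=
        mul_le_mul_of_nonneg_left this (norm_nonneg _)
    _ = _ := mul_one _

lemma geom_sub_le (h : PK p K) {x : K} (hx : ‖x - 1‖ ≤ (p : ℝ)⁻¹) (n : ℕ) :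
    ‖(∑ i ∈ Finset.range n, x ^ i) - n‖ ≤ ‖x - 1‖ := by
  have : (∑ i ∈ Finset.range n, x ^ i) - n = ∑ i ∈ Finset.range n, (x ^ i - 1) := by
    rw [Finset.sum_sub_distrib]
    simp
  rw [this]
  exact IsUltrametricDist.norm_sum_le_of_forall_le_of_nonneg (norm_nonneg _)
    (fun i _ => pow_sub_le h hx i)

lemma pow_sub_sub_le (h : PK p K) {x : K} (hx : ‖x - 1‖ ≤ (p : ℝ)⁻¹) (n : ℕ) :
    ‖x ^ n - 1 - n * (x - 1)‖ ≤ ‖x - 1‖ ^ 2 := by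
  have : x ^ n - 1 - n * (x - 1) = (x - 1) * ((∑ i ∈ Finset.range n, x ^ i) - n) := by
    rw [← mul_geom_sum x n]; ring
  rw [this, norm_mul, sq]
  exact mul_le_mul_of_nonneg_left (geom_sub_le h hx n) (norm_nonneg _)

lemma norm_sum_id (h : PK p K) : ‖((∑ i ∈ Finset.range p, i : ℕ) : K)‖ ≤ (p : ℝ)⁻¹ := by
  have h1 : ((∑ i ∈ Finset.range p, i) * 2 : ℕ) = p * (p - 1) := Finset.sum_range_id_mul_two p
  have h2 : ((∑ i ∈ Finset.range p, i : ℕ) : K) * ((2 : ℕ) : K) =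
      (p : K) * ((p - 1 : ℕ) : K) := by
    rw [← Nat.cast_mul, ← Nat.cast_mul, h1]
  have h3 : ‖((2 : ℕ) : K)‖ = 1 := by
    refine nat_eq h 2 ?_
    intro hd
    exact h.odd ((Nat.prime_dvd_prime_iff_eq h.prime Nat.prime_two).1 hd)
  have h4 := congrArg norm h2
  rw [norm_mul, norm_mul, h3, mul_one, h.norm_p] at h4
  rw [h4]
  calc (p : ℝ)⁻¹ * ‖((p - 1 : ℕ) : K)‖ ≤ (p : ℝ)⁻¹ * 1 :=
        mul_le_mul_of_nonneg_left (nat_le _) (p_pos h).le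
    _ = _ := mul_one _

lemma pow_p_sub (h : PK p K) {x : K} (hx : ‖x - 1‖ ≤ (p : ℝ)⁻¹) :
    ‖x ^ p - 1 - p * (x - 1)‖ ≤ (p : ℝ)⁻¹ * ‖x - 1‖ ^ 2 := by
  have key : x ^ p - 1 - p * (x - 1) = (x - 1) *
      (∑ i ∈ Finset.range p, (x ^ i - 1 - i * (x - 1)) +
        ((∑ i ∈ Finset.range p, i : ℕ) : K) * (x - 1)) := by
    have h1 : (∑ i ∈ Finset.range p, (x ^ i - 1 - i * (x - 1))) =
        (∑ i ∈ Finset.range p, x ^ i) - p - ((∑ i ∈ Finset.range p, i : ℕ) : K) * (x - 1) := by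
      rw [Finset.sum_sub_distrib, Finset.sum_sub_distrib, ← Finset.sum_mul, Nat.cast_sum]
      simp
    rw [h1, ← mul_geom_sum x p]
    ring
  rw [key, norm_mul, sq]
  have h2 : ‖∑ i ∈ Finset.range p, (x ^ i - 1 - i * (x - 1))‖ ≤ (p : ℝ)⁻¹ * ‖x - 1‖ := by
    refine IsUltrametricDist.norm_sum_le_of_forall_le_of_nonneg
      (mul_nonneg (p_pos h).le (norm_nonneg _)) ?_
    intro i _
    refine (pow_sub_sub_le h hx i).trans ?_
    rw [sq]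
    exact mul_le_mul_of_nonneg_right hx (norm_nonneg _)
  have h3 : ‖((∑ i ∈ Finset.range p, i : ℕ) : K) * (x - 1)‖ ≤ (p : ℝ)⁻¹ * ‖x - 1‖ := by
    rw [norm_mul]
    exact mul_le_mul_of_nonneg_right (norm_sum_id h) (norm_nonneg _)
  have h4 := (IsUltrametricDist.norm_add_le_max _ _).trans (max_le h2 h3)
  calc ‖x - 1‖ * ‖_‖ ≤ ‖x - 1‖ * ((p : ℝ)⁻¹ * ‖x - 1‖) :=
        mul_le_mul_of_nonneg_left h4 (norm_nonneg _)
    _ = _ := by ring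

lemma pow_p_norm (h : PK p K) {x : K} (hx : ‖x - 1‖ ≤ (p : ℝ)⁻¹) :
    ‖x ^ p - 1‖ = (p : ℝ)⁻¹ * ‖x - 1‖ := by
  rcases eq_or_ne (x - 1) 0 with h0 | h0
  · have : x = 1 := sub_eq_zero.1 h0
    subst this
    simp
  · have hpos : 0 < ‖x - 1‖ := norm_pos_iff.2 h0
    have h1 : ‖(p : K) * (x - 1)‖ = (p : ℝ)⁻¹ * ‖x - 1‖ := by rw [norm_mul, h.norm_p]
    have h2 : ‖x ^ p - 1 - p * (x - 1)‖ < ‖(p : K) * (x - 1)‖ := by
      rw [h1]
      refine (pow_p_sub h hx).trans_lt ?_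
      have h3 : ‖x - 1‖ < 1 := hx.trans_lt (p_lt h)
      have h4 : 0 < (p : ℝ)⁻¹ * ‖x - 1‖ := mul_pos (p_pos h) hpos
      calc (p : ℝ)⁻¹ * ‖x - 1‖ ^ 2 = ((p : ℝ)⁻¹ * ‖x - 1‖) * ‖x - 1‖ := by ring
        _ < ((p : ℝ)⁻¹ * ‖x - 1‖) * 1 := mul_lt_mul_of_pos_left h3 h4
        _ = _ := mul_one _
    have h5 : x ^ p - 1 = (x ^ p - 1 - p * (x - 1)) + p * (x - 1) := by ring
    rw [h5, IsUltrametricDist.norm_add_eq_max_of_norm_ne_norm (ne_of_lt h2),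
      max_eq_right h2.le, h1]

lemma pow_norm_of_not_dvd (h : PK p K) {x : K} (hx : ‖x - 1‖ ≤ (p : ℝ)⁻¹) {n : ℕ}
    (hn : ¬ p ∣ n) : ‖x ^ n - 1‖ = ‖x - 1‖ := by
  have h1 : ‖(∑ i ∈ Finset.range n, x ^ i) - n‖ < ‖(n : K)‖ := by
    rw [nat_eq h n hn]
    exact ((geom_sub_le h hx n).trans hx).trans_lt (p_lt h)
  have h2 : ‖∑ i ∈ Finset.range n, x ^ i‖ = 1 := by
    have h3 : (∑ i ∈ Finset.range n, x ^ i) = ((∑ i ∈ Finset.range n, x ^ i) - n) + n := by ring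
    rw [h3, IsUltrametricDist.norm_add_eq_max_of_norm_ne_norm (ne_of_lt h1),
      max_eq_right h1.le, nat_eq h n hn]
  rw [← mul_geom_sum x n, norm_mul, h2, mul_one]

lemma pow_norm (h : PK p K) (n : ℕ) : ∀ x : K, ‖x - 1‖ ≤ (p : ℝ)⁻¹ →
    ‖x ^ n - 1‖ = ‖(n : K)‖ * ‖x - 1‖ := by
  induction n using Nat.strong_induction_on with
  | _ n ih =>
    intro x hx
    by_cases hn : p ∣ n
    · obtain ⟨m, rfl⟩ := hn
      rcases Nat.eq_zero_or_pos m with h0 | h0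
      · subst h0
        simp
      · have hlt : m < p * m := by
          have := h.prime.one_lt
          nlinarith
        have h1 : ‖x ^ p - 1‖ = (p : ℝ)⁻¹ * ‖x - 1‖ := pow_p_norm h hx
        have h2 : ‖x ^ p - 1‖ ≤ (p : ℝ)⁻¹ := by
          rw [h1]
          calc (p : ℝ)⁻¹ * ‖x - 1‖ ≤ (p : ℝ)⁻¹ * 1 :=
                mul_le_mul_of_nonneg_left (hx.trans (p_lt h).le) (p_pos h).le
            _ = _ := mul_one _
        rw [pow_mul, ih m hlt _ h2, h1, Nat.cast_mul, norm_mul, h.norm_p]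
        ring
    · rw [pow_norm_of_not_dvd h hx hn, nat_eq h n hn, one_mul]

end

theorem pw : T_PW := by
  intro p K _ _ h
  exact ⟨fun n => nat_le n, fun n hn => nat_eq h n hn, fun x hx n => pow_norm h n x hx⟩

end Pool.Agent.H31.ZW
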